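import Pool.Agent.N963.GN.StmM

/-!
# Counting coprime pairs with congruence conditions in a box (subtask GN/M2c)
-/

set_option autoImplicit false

namespace Pool.Agent.N157.GN

open Filter Topology Finset

/-- a residue class in an interval -/
theorem card_class {A g : ℕ} (S : Finset ℕ) (hS : S ⊆ range A)
    (h : ∀ x ∈ S, ∀ y ∈ S, x % g = y % g) : (S.card : ℝ) ≤ (A : ℝ) / g + 1 := by
  have h1 : S.card ≤ (range (A / g + 1)).card := by
    refine card_le_card_of_injOn (fun x => x / g) ?_ ?_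
    · intro x hx
      have := mem_range.1 (hS hx)
      refine mem_coe.2 (mem_range.2 ?_)
      have h2 : x / g ≤ A / g := Nat.div_le_div_right this.le
      exact Nat.lt_succ_of_le h2
    · intro x hx y hy hxy
      have h2 := h x hx y hy
      have h3 : x / g = y / g := hxy
      rw [← Nat.div_add_mod x g, ← Nat.div_add_mod y g, h2, h3]
  rw [card_range] at h1
  calc (S.card : ℝ) ≤ ((A / g + 1 : ℕ) : ℝ) := by exact_mod_cast h1
    _ ≤ (A : ℝ) / g + 1 := by
        push_cast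
        have := Nat.cast_div_le (α := ℝ) (m := A) (n := g)
        linarith

theorem sum_inv_sq (D : ℕ) : ∑ g ∈ Icc 2 D, (1 : ℝ) / (g : ℝ) ^ 2 ≤ 3 / 4 := by
  have key : ∀ D : ℕ, 2 ≤ D → ∑ g ∈ Icc 2 D, (1 : ℝ) / (g : ℝ) ^ 2 ≤ 3 / 4 - 1 / D := by
    intro D hD
    induction D, hD using Nat.le_induction with
    | base => norm_num
    | succ D hD ih =>
      rw [Finset.sum_Icc_succ_top (by omega)]
      have hD0 : (0 : ℝ) < D := by exact_mod_cast (by omega : 0 < D)
      have h1 : (1 : ℝ) / ((D + 1 : ℕ) : ℝ) ^ 2 ≤ 1 / D - 1 / ((D + 1 : ℕ) : ℝ) := by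
        push_cast
        rw [div_sub_div _ _ (by positivity) (by positivity), div_le_div_iff₀ (by positivity) (by positivity)]
        nlinarith
      linarith
  rcases Nat.lt_or_ge D 2 with h | h
  · rw [Icc_eq_empty (by omega)]
    norm_num
  · have h1 := key D h
    have : (0 : ℝ) ≤ 1 / D := by positivity
    linarith

theorem sum_inv (D : ℕ) : ∑ g ∈ Icc 2 D, (1 : ℝ) / (g : ℝ) ≤ 1 + Real.log D := by
  have h1 := harmonic_le_one_add_log D
  rw [harmonic_eq_sum_Icc] at h1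
  push_cast at h1
  refine le_trans ?_ h1
  simp_rw [one_div]
  exact Finset.sum_le_sum_of_subset_of_nonneg (Finset.Icc_subset_Icc_left (by norm_num))
    fun i _ _ => by positivity

/-- the number of pairs that are not coprime -/
theorem bad_card (N : ℕ) (s m0 n0 : ℤ) (A B D : ℕ) (hs : s = 1 ∨ s = -1)
    (h0 : ∀ j < B, 0 < (N : ℤ) * (n0 + j)) (hD : ∀ j < B, (N : ℤ) * (n0 + j) ≤ D) :
    ((((range A) ×ˢ (range B)).filter fun e =>
      ¬ IsCoprime ((N : ℤ) * (m0 + e.1) + s) ((N : ℤ) * (n0 + e.2))).card : ℝ) ≤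
      3 / 4 * A * B + (A + B) * (1 + Real.log D) + D := by
  classical
  set bad := ((range A) ×ˢ (range B)).filter fun e =>
      ¬ IsCoprime ((N : ℤ) * (m0 + e.1) + s) ((N : ℤ) * (n0 + e.2)) with hbad
  let U : ℕ → Finset ℕ := fun g => (range A).filter fun i => IsCoprime (g : ℤ) N ∧ (g : ℤ) ∣ (N : ℤ) * (m0 + i) + s
  let V : ℕ → Finset ℕ := fun g => (range B).filter fun j => IsCoprime (g : ℤ) N ∧ (g : ℤ) ∣ (N : ℤ) * (n0 + j)
  have hcong : ∀ (g : ℕ) (x y : ℕ) (c : ℤ), IsCoprime (g : ℤ) N → (g : ℤ) ∣ (N : ℤ) * (c + x) →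
      (g : ℤ) ∣ (N : ℤ) * (c + y) → x % g = y % g := by
    intro g x y c hg hx hy
    have h1 : (g : ℤ) ∣ (N : ℤ) * ((y : ℤ) - x) := by
      have h3 : (N : ℤ) * ((y : ℤ) - x) = (N : ℤ) * (c + y) - (N : ℤ) * (c + x) := by ring
      rw [h3]
      exact dvd_sub hy hx
    have h2 : (g : ℤ) ∣ (y : ℤ) - x := hg.dvd_of_dvd_mul_left h1
    exact (Nat.modEq_iff_dvd.2 h2)
  have hcong' : ∀ (g : ℕ) (x y : ℕ) (c t : ℤ), IsCoprime (g : ℤ) N → (g : ℤ) ∣ (N : ℤ) * (c + x) + t →
      (g : ℤ) ∣ (N : ℤ) * (c + y) + t → x % g = y % g := by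
    intro g x y c t hg hx hy
    have h1 : (g : ℤ) ∣ (N : ℤ) * ((y : ℤ) - x) := by
      have h3 : (N : ℤ) * ((y : ℤ) - x) = ((N : ℤ) * (c + y) + t) - ((N : ℤ) * (c + x) + t) := by ring
      rw [h3]
      exact dvd_sub hy hx
    have h2 : (g : ℤ) ∣ (y : ℤ) - x := hg.dvd_of_dvd_mul_left h1
    exact (Nat.modEq_iff_dvd.2 h2)
  have hU : ∀ g, ((U g).card : ℝ) ≤ (A : ℝ) / g + 1 := by
    intro g
    refine card_class _ (filter_subset _ _) fun x hx y hy => ?_
    have hx' := (mem_filter.1 hx).2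
    have hy' := (mem_filter.1 hy).2
    exact hcong' g x y m0 s hx'.1 hx'.2 hy'.2
  have hV : ∀ g, ((V g).card : ℝ) ≤ (B : ℝ) / g + 1 := by
    intro g
    refine card_class _ (filter_subset _ _) fun x hx y hy => ?_
    have hx' := (mem_filter.1 hx).2
    have hy' := (mem_filter.1 hy).2
    exact hcong g x y n0 hx'.1 hx'.2 hy'.2
  have hsub : bad ⊆ (Icc 2 D).biUnion fun g => (U g) ×ˢ (V g) := by
    intro e he
    obtain ⟨he1, he2⟩ := mem_filter.1 he
    obtain ⟨hi, hj⟩ := mem_product.1 he1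
    set p : ℤ := (N : ℤ) * (m0 + e.1) + s with hp
    set q : ℤ := (N : ℤ) * (n0 + e.2) with hq
    have hq0 : 0 < q := h0 _ (mem_range.1 hj)
    have hqD : q ≤ D := hD _ (mem_range.1 hj)
    have hg1 : Int.gcd p q ≠ 1 := fun h => he2 (Int.isCoprime_iff_gcd_eq_one.2 h)
    have hg0 : Int.gcd p q ≠ 0 := by
      intro h
      have := (Int.gcd_eq_zero_iff.1 h).2
      omega
    have hgp : ((Int.gcd p q : ℕ) : ℤ) ∣ p := Int.gcd_dvd_left p q
    have hgq : ((Int.gcd p q : ℕ) : ℤ) ∣ q := Int.gcd_dvd_right p q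
    have hgD : Int.gcd p q ≤ D := by
      have := (Int.le_of_dvd hq0 hgq).trans hqD
      exact_mod_cast this
    have hcop : IsCoprime ((Int.gcd p q : ℕ) : ℤ) (N : ℤ) := by
      have h1 : IsCoprime p (N : ℤ) := by
        rcases hs with h | h
        · refine ⟨1, -(m0 + e.1), ?_⟩
          rw [hp, h]; ring
        · refine ⟨-1, (m0 + e.1), ?_⟩
          rw [hp, h]; ring
      exact h1.of_isCoprime_of_dvd_left hgp
    refine mem_biUnion.2 ⟨Int.gcd p q, mem_Icc.2 ⟨by omega, hgD⟩, mem_product.2 ⟨?_, ?_⟩⟩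
    · exact mem_filter.2 ⟨hi, hcop, hgp⟩
    · exact mem_filter.2 ⟨hj, hcop, hgq⟩
  have h1 : (bad.card : ℝ) ≤ ∑ g ∈ Icc 2 D, ((A : ℝ) / g + 1) * ((B : ℝ) / g + 1) := by
    calc (bad.card : ℝ) ≤ (((Icc 2 D).biUnion fun g => (U g) ×ˢ (V g)).card : ℝ) := by
          exact_mod_cast card_le_card hsub
      _ ≤ ((∑ g ∈ Icc 2 D, ((U g) ×ˢ (V g)).card : ℕ) : ℝ) := by exact_mod_cast card_biUnion_le
      _ = ∑ g ∈ Icc 2 D, ((U g).card : ℝ) * ((V g).card : ℝ) := by
          push_cast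
          refine sum_congr rfl fun g _ => ?_
          rw [card_product]
          push_cast
          rfl
      _ ≤ _ := by
          refine sum_le_sum fun g _ => ?_
          exact mul_le_mul (hU g) (hV g) (by positivity) (by positivity)
  refine h1.trans ?_
  have h2 : ∑ g ∈ Icc 2 D, ((A : ℝ) / g + 1) * ((B : ℝ) / g + 1) =
      A * B * ∑ g ∈ Icc 2 D, (1 : ℝ) / (g : ℝ) ^ 2 + (A + B) * ∑ g ∈ Icc 2 D, (1 : ℝ) / (g : ℝ) +
        ((Icc 2 D).card : ℝ) := by
    rw [mul_sum, mul_sum, card_eq_sum_ones, Nat.cast_sum, ← sum_add_distrib, ← sum_add_distrib]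
    refine sum_congr rfl fun g hg => ?_
    have : (g : ℝ) ≠ 0 := by
      have := (mem_Icc.1 hg).1
      exact_mod_cast (by omega : g ≠ 0)
    push_cast
    field_simp
    ring
  rw [h2]
  have h3 : ((Icc 2 D).card : ℝ) ≤ D := by
    rw [Nat.card_Icc]
    exact_mod_cast (by omega : D + 1 - 2 ≤ D)
  have h4 : (A : ℝ) * B * ∑ g ∈ Icc 2 D, (1 : ℝ) / (g : ℝ) ^ 2 ≤ A * B * (3 / 4) :=
    mul_le_mul_of_nonneg_left (sum_inv_sq D) (by positivity)
  have h5 : ((A : ℝ) + B) * ∑ g ∈ Icc 2 D, (1 : ℝ) / (g : ℝ) ≤ (A + B) * (1 + Real.log D) :=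
    mul_le_mul_of_nonneg_left (sum_inv D) (by positivity)
  linarith

theorem m2c : Pool.Agent.N963.GN.S_M2c := by
  classical
  intro N s x1 x2 hN hs hx
  have hNR : (0 : ℝ) < N := by exact_mod_cast hN
  have hN1 : (1 : ℝ) ≤ N := by exact_mod_cast hN
  set l : ℝ := x2 - x1 with hl
  have hl0 : 0 < l := sub_pos.2 hx
  set M : ℝ := |x1| + |x2| + 1 with hM
  have hM0 : 0 < M := by positivity
  set ε : ℝ := min 1 (l / (4 * M)) with hε
  have hε0 : 0 < ε := lt_min one_pos (by positivity)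
  have hε1 : ε ≤ 1 := min_le_left _ _
  have hε2 : (|x1| + |x2|) * ε ≤ l / 4 := by
    have h1 : ε ≤ l / (4 * M) := min_le_right _ _
    calc (|x1| + |x2|) * ε ≤ M * (l / (4 * M)) :=
          mul_le_mul (by linarith) h1 hε0.le hM0.le
      _ = l / 4 := by field_simp
  set a : ℝ := l / (2 * N) with ha
  set b : ℝ := ε / (2 * N) with hb
  have ha0 : 0 < a := by positivity
  have hb0 : 0 < b := by positivity
  have haN : (N : ℝ) * a = l / 2 := by rw [ha]; field_simp
  have hbN : (N : ℝ) * b = ε / 2 := by rw [hb]; field_simp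
  set η : ℝ := a * b / (128 * (a + b)) with hη
  have hη0 : 0 < η := by positivity
  have hlog : ∀ᶠ Q : ℝ in atTop, Real.log (2 * Q) ≤ η * (2 * Q) := by
    have h1 := Real.isLittleO_log_id_atTop.def hη0
    have h2 : Tendsto (fun Q : ℝ => 2 * Q) atTop atTop := tendsto_id.const_mul_atTop (by norm_num)
    filter_upwards [h2.eventually h1, eventually_ge_atTop (1 : ℝ)] with Q h3 h4
    rw [id, Real.norm_eq_abs, Real.norm_eq_abs, abs_of_nonneg (by linarith : (0 : ℝ) ≤ 2 * Q)] at h3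
    exact (le_abs_self _).trans h3
  have hlin : ∀ (c C : ℝ), 0 < c → ∀ᶠ Q : ℝ in atTop, C ≤ c * Q := by
    intro c C hc
    filter_upwards [eventually_ge_atTop (C / c)] with Q hQ
    rw [div_le_iff₀ hc] at hQ
    linarith
  have hall := (hlin (ε / 2) N (by positivity)).and ((hlin (l / 4) (N + 2) (by positivity)).and
    ((hlin a 2 ha0).and ((hlin b 2 hb0).and ((hlin (a * b / 128) (a + b) (by positivity)).and
    ((hlin (a * b / 128) 2 (by positivity)).and hlog)))))
  obtain ⟨Q1, hQ1⟩ := eventually_atTop.1 hall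
  refine ⟨a * b / 32, max 1 Q1, by positivity, le_max_left _ _, fun Q hQ => ?_⟩
  have hQ01 : 1 ≤ Q := (le_max_left _ _).trans hQ
  obtain ⟨c1, c2, c3, c4, c5, c6, c7⟩ := hQ1 Q ((le_max_right _ _).trans hQ)
  have hQ0 : 0 < Q := by linarith
  set A : ℕ := ⌊a * Q⌋₊ with hA
  set B : ℕ := ⌊b * Q⌋₊ with hB
  have hA1 : (A : ℝ) ≤ a * Q := Nat.floor_le (by positivity)
  have hB1 : (B : ℝ) ≤ b * Q := Nat.floor_le (by positivity)
  have hA2 : a * Q / 2 ≤ A := by
    have := Nat.lt_floor_add_one (a * Q)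
    rw [← hA] at this
    linarith
  have hB2 : b * Q / 2 ≤ B := by
    have := Nat.lt_floor_add_one (b * Q)
    rw [← hB] at this
    linarith
  set n0 : ℤ := ⌈Q / N⌉ with hn0
  have hn1 : Q ≤ N * n0 := by
    have := Int.le_ceil (Q / N)
    rw [div_le_iff₀ hNR] at this
    rw [mul_comm]
    exact this
  have hn2 : (N : ℝ) * n0 ≤ Q + N := by
    have := (Int.ceil_lt_add_one (Q / N)).le
    have h2 := mul_le_mul_of_nonneg_left this hNR.le
    rw [mul_add, mul_div_cancel₀ _ hNR.ne', mul_one] at h2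
    exact h2
  set lo : ℝ := (x1 + |x1| * ε) * Q with hlo
  set m0 : ℤ := ⌈(lo + 1) / N⌉ with hm0
  have hm1 : lo + 1 ≤ N * m0 := by
    have := Int.le_ceil ((lo + 1) / N)
    rw [div_le_iff₀ hNR] at this
    rw [mul_comm]
    exact this
  have hm2 : (N : ℝ) * m0 ≤ lo + 1 + N := by
    have := (Int.ceil_lt_add_one ((lo + 1) / N)).le
    have h2 := mul_le_mul_of_nonneg_left this hNR.le
    rw [mul_add, mul_div_cancel₀ _ hNR.ne', mul_one] at h2
    exact h2
  have hsR : -1 ≤ (s : ℝ) ∧ (s : ℝ) ≤ 1 := by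
    rcases hs with h | h <;> rw [h] <;> norm_num
  -- the range of `q`
  have hq : ∀ j < B, Q ≤ (N : ℝ) * (n0 + j) ∧ (N : ℝ) * (n0 + j) ≤ (1 + ε) * Q := by
    intro j hj
    have hj1 : (j : ℝ) ≤ b * Q := (by exact_mod_cast hj.le : (j : ℝ) ≤ B).trans hB1
    have hj0 : (0 : ℝ) ≤ j := by positivity
    constructor
    · have h0 : 0 ≤ (N : ℝ) * j := by positivity
      rw [mul_add]
      linarith
    · have h1 : (N : ℝ) * j ≤ ε / 2 * Q := by
        rw [← hbN, mul_assoc]
        exact mul_le_mul_of_nonneg_left hj1 hNR.le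
      rw [mul_add, one_add_mul]
      linarith
  have hp : ∀ i < A, lo ≤ (N : ℝ) * (m0 + i) + s ∧
      (N : ℝ) * (m0 + i) + s ≤ (x2 - |x2| * ε) * Q := by
    intro i hi
    have hi1 : (i : ℝ) ≤ a * Q := (by exact_mod_cast hi.le : (i : ℝ) ≤ A).trans hA1
    have hi0 : (0 : ℝ) ≤ i := by positivity
    constructor
    · have h0 : 0 ≤ (N : ℝ) * i := by positivity
      rw [mul_add]
      linarith
    · have h1 : (N : ℝ) * i ≤ l / 2 * Q := by
        rw [← haN, mul_assoc]
        exact mul_le_mul_of_nonneg_left hi1 hNR.le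
      have h2 : (|x1| + |x2|) * ε * Q ≤ l / 4 * Q := mul_le_mul_of_nonneg_right hε2 hQ0.le
      have h3 : lo + l * Q - (|x1| + |x2|) * ε * Q = (x2 - |x2| * ε) * Q := by
        rw [hlo, hl]; ring
      rw [mul_add, ← h3]
      linarith
  set D : ℕ := ⌊2 * Q⌋₊ with hD
  have hD1 : (D : ℝ) ≤ 2 * Q := Nat.floor_le (by positivity)
  have hDpos : 0 < D := Nat.floor_pos.2 (by linarith)
  have hbad := bad_card N s m0 n0 A B D hs ?_ ?_
  rotate_left
  · intro j hj
    have h1 := (hq j hj).1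
    have h2 : (0 : ℝ) < (((N : ℤ) * (n0 + j) : ℤ) : ℝ) := by
      push_cast
      linarith
    exact_mod_cast h2
  · intro j hj
    have h1 := (hq j hj).2
    have h2 : (N : ℝ) * (n0 + j) ≤ 2 * Q :=
      h1.trans (mul_le_mul_of_nonneg_right (by linarith) hQ0.le)
    have h3 : ((N : ℤ) * (n0 + j) : ℤ) ≤ ⌊2 * Q⌋ := by
      rw [Int.le_floor]
      push_cast
      exact h2
    have h4 : (⌊2 * Q⌋ : ℤ) = (D : ℤ) := by
      rw [hD]
      exact (Int.natCast_floor_eq_floor (by positivity)).symm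
    rw [← h4]
    exact h3
  set good := ((range A) ×ˢ (range B)).filter fun e =>
      IsCoprime ((N : ℤ) * (m0 + e.1) + s) ((N : ℤ) * (n0 + e.2)) with hgood
  have hcard : (good.card : ℝ) + ((((range A) ×ˢ (range B)).filter fun e =>
      ¬ IsCoprime ((N : ℤ) * (m0 + e.1) + s) ((N : ℤ) * (n0 + e.2))).card : ℝ) = A * B := by
    have h1 := card_filter_add_card_filter_not (s := (range A) ×ˢ (range B))
      (fun e => IsCoprime ((N : ℤ) * (m0 + e.1) + s) ((N : ℤ) * (n0 + e.2)))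
    rw [card_product, card_range, card_range] at h1
    rw [hgood]
    exact_mod_cast h1
  have hinj : Function.Injective (fun e : ℕ × ℕ => ((N : ℤ) * (m0 + e.1) + s, (N : ℤ) * (n0 + e.2))) := by
    intro e f hef
    have hN' : (N : ℤ) ≠ 0 := by exact_mod_cast hN.ne'
    have h1 := (Prod.ext_iff.1 hef).1
    have h2 := (Prod.ext_iff.1 hef).2
    simp only at h1 h2
    have h3 := mul_left_cancel₀ hN' (add_right_cancel h1)
    have h4 := mul_left_cancel₀ hN' h2
    refine Prod.ext ?_ ?_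
    · have := add_left_cancel h3
      exact_mod_cast this
    · have := add_left_cancel h4
      exact_mod_cast this
  refine ⟨good.image (fun e : ℕ × ℕ => ((N : ℤ) * (m0 + e.1) + s, (N : ℤ) * (n0 + e.2))), ?_, ?_⟩
  · rw [card_image_of_injective _ hinj]
    have h1 : (a * Q / 2) * (b * Q / 2) ≤ (A : ℝ) * B := mul_le_mul hA2 hB2 (by positivity) (by positivity)
    have h2 : Real.log D ≤ η * (2 * Q) :=
      (Real.log_le_log (by exact_mod_cast hDpos) hD1).trans c7
    have h3 : ((A : ℝ) + B) * (1 + Real.log D) ≤ (a + b) * Q * (1 + η * (2 * Q)) := by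
      refine mul_le_mul (by linarith) (by linarith) ?_ (by positivity)
      have : 0 ≤ Real.log D := Real.log_nonneg (by exact_mod_cast hDpos)
      linarith
    have h4 : (a + b) * Q * (η * (2 * Q)) = a * b / 64 * Q ^ 2 := by
      rw [hη]
      field_simp
      norm_num
    have h5 : (a + b) * Q ≤ a * b / 128 * Q ^ 2 := by
      have := mul_le_mul_of_nonneg_right c5 hQ0.le
      rw [mul_assoc, ← pow_two] at this
      exact this
    have h6 : 2 * Q ≤ a * b / 128 * Q ^ 2 := by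
      have := mul_le_mul_of_nonneg_right c6 hQ0.le
      rw [mul_assoc, ← pow_two] at this
      exact this
    have h7 : (a * Q / 2) * (b * Q / 2) = a * b / 4 * Q ^ 2 := by ring
    have h8 : (a + b) * Q * (1 + η * (2 * Q)) = (a + b) * Q + a * b / 64 * Q ^ 2 := by
      rw [mul_add, h4, mul_one]
    have h9 : 3 / 4 * (A : ℝ) * B = 3 / 4 * ((A : ℝ) * B) := by ring
    rw [h7] at h1
    rw [h8] at h3
    rw [h9] at hbad
    linarith
  · intro e he
    obtain ⟨f, hf, rfl⟩ := mem_image.1 he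
    obtain ⟨hf1, hf2⟩ := mem_filter.1 hf
    obtain ⟨hi, hj⟩ := mem_product.1 hf1
    obtain ⟨q1, q2⟩ := hq _ (mem_range.1 hj)
    obtain ⟨p1, p2⟩ := hp _ (mem_range.1 hi)
    have hqx : |((N : ℝ) * (n0 + f.2)) - Q| ≤ ε * Q := by
      rw [abs_le]
      have h1 : 0 ≤ ε * Q := by positivity
      rw [one_add_mul] at q2
      constructor <;> linarith
    set q : ℝ := (N : ℝ) * (n0 + f.2) with hqdef
    have hx1q : x1 * q ≤ x1 * Q + |x1| * (ε * Q) := by
      have h1 : x1 * (q - Q) ≤ |x1| * |q - Q| := (le_abs_self _).trans (abs_mul _ _).le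
      have h2 := mul_le_mul_of_nonneg_left hqx (abs_nonneg x1)
      rw [mul_sub] at h1
      linarith
    have hx2q : x2 * Q - |x2| * (ε * Q) ≤ x2 * q := by
      have h1 : -(|x2| * |q - Q|) ≤ x2 * (q - Q) := by
        rw [← abs_mul]
        exact neg_abs_le _
      have h2 := mul_le_mul_of_nonneg_left hqx (abs_nonneg x2)
      rw [mul_sub] at h1
      linarith
    refine ⟨?_, ?_, dvd_mul_right _ _, ?_, hf2, ?_, ?_⟩
    · push_cast
      exact q1
    · push_cast
      refine q2.trans (mul_le_mul_of_nonneg_right (by linarith) hQ0.le)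
    · simp
    · push_cast
      rw [← hqdef]
      rw [hlo, add_mul, mul_assoc] at p1
      exact hx1q.trans p1
    · push_cast
      rw [← hqdef]
      rw [sub_mul, mul_assoc |x2|] at p2
      exact p2.trans hx2q

end Pool.Agent.N157.GN
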