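import Pool.Agent.N782.GN.StmT

/-!
# Project GN (helper782), part MUB (helper157): the Moebius function and the von Mangoldt function
of `ℤ[i]`
-/

set_option autoImplicit false

namespace Pool.Agent.N157.GN

open Finset Filter Topology
open Pool.Agent.N782.GN
open Pool.Agent.H304R3.HK (UH bb LamK)

theorem mu_eq (z : ZI) : mu z = ((UniqueFactorizationMonoid.moebius z : ℤ) : ℝ) := by
  classical
  by_cases hz : Squarefree z
  · rw [hz.moebius_eq]
    unfold mu
    rw [if_pos hz]
    push_cast
    rfl
  · rw [UniqueFactorizationMonoid.moebius_of_not_squarefree hz]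
    unfold mu
    rw [if_neg hz]
    simp

theorem mu_mul {a b : ZI} (h : IsCoprime a b) : mu (a * b) = mu a * mu b := by
  rw [mu_eq, mu_eq, mu_eq, h.isRelPrime.moebius_mul]
  push_cast
  rfl

theorem mu_mul_zero {a b : ZI} (h : ¬ IsCoprime a b) : mu (a * b) = 0 := by
  rw [mu_eq, UniqueFactorizationMonoid.moebius_of_not_squarefree]
  · simp
  · intro hs
    exact h (squarefree_mul_iff.1 hs).1.isCoprime

theorem mu_unit_mul {u a : ZI} (hu : IsUnit u) : mu (u * a) = mu a := by
  rw [mu_eq, mu_eq]
  have h : Associated (u * a) a := by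
    obtain ⟨v, rfl⟩ := hu
    exact (associated_unit_mul_left a (v : ZI) v.isUnit)
  rw [h.moebius_eq]

theorem mu_unit {u : ZI} (hu : IsUnit u) : mu u = 1 := by
  rw [mu_eq, hu.moebius_eq]
  simp

theorem mu_prime {p : ZI} (hp : Prime p) : mu p = -1 := by
  rw [mu_eq, hp.irreducible.moebius_eq]
  simp

/-- the units of `ℤ[i]` -/
def UU : Finset ZI := {⟨1, 0⟩, ⟨-1, 0⟩, ⟨0, 1⟩, ⟨0, -1⟩}

theorem card_UU : UU.card = 4 := by
  decide

theorem mem_UU (u : ZI) : u ∈ UU ↔ IsUnit u := by
  rw [← Zsqrtd.norm_eq_one_iff' (by norm_num : (-1 : ℤ) ≤ 0), Zsqrtd.norm_def]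
  unfold UU
  simp only [mem_insert, mem_singleton]
  constructor
  · rintro (rfl | rfl | rfl | rfl) <;> norm_num
  · intro h
    obtain ⟨x, y⟩ := u
    simp only at h
    have hx : x ^ 2 ≤ 1 := by nlinarith [sq_nonneg y]
    have hy : y ^ 2 ≤ 1 := by nlinarith [sq_nonneg x]
    have hx1 : -1 ≤ x ∧ x ≤ 1 := by constructor <;> nlinarith
    have hy1 : -1 ≤ y ∧ y ≤ 1 := by constructor <;> nlinarith
    obtain ⟨hx1, hx2⟩ := hx1
    obtain ⟨hy1, hy2⟩ := hy1
    simp only [Zsqrtd.ext_iff]
    interval_cases x <;> interval_cases y <;> simp_all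

theorem nz_mul (a b : ZI) : nz (a * b) = nz a * nz b := by
  unfold nz
  rw [Zsqrtd.norm_mul]
  push_cast
  rfl

theorem one_le_nz {z : ZI} (hz : z ≠ 0) : 1 ≤ nz z := by
  have h0 : (0 : ℝ) ≤ nz z := nz_nonneg z
  unfold nz at *
  have h1 : Zsqrtd.norm z ≠ 0 := by
    intro h
    exact hz ((Zsqrtd.norm_eq_zero_iff (by norm_num : (-1 : ℤ) < 0) z).1 h)
  have h2 : 0 ≤ Zsqrtd.norm z := by exact_mod_cast h0
  have h3 : 1 ≤ Zsqrtd.norm z := by omega
  exact_mod_cast h3

theorem nz_le_of_dvd {d z : ZI} (hz : z ≠ 0) (h : d ∣ z) : nz d ≤ nz z := by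
  obtain ⟨e, rfl⟩ := h
  rw [nz_mul]
  have he : e ≠ 0 := right_ne_zero_of_mul hz
  have := one_le_nz he
  nlinarith [nz_nonneg d]

open Classical in
theorem mem_D {d z : ZI} (hz : z ≠ 0) :
    d ∈ (bl (nz z)).filter (fun d => d ∣ z) ↔ d ∣ z := by
  rw [mem_filter, mem_bl]
  constructor
  · exact fun h => h.2
  · intro h
    refine ⟨⟨?_, nz_le_of_dvd hz h⟩, h⟩
    rintro rfl
    exact hz (zero_dvd_iff.1 h)

open Classical in
theorem sum_mu (z : ZI) (hz : z ≠ 0) :
    ∑ d ∈ (bl (nz z)).filter (fun d => d ∣ z), mu d = if IsUnit z then 4 else 0 := by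
  by_cases hu : IsUnit z
  · rw [if_pos hu]
    have e : (bl (nz z)).filter (fun d => d ∣ z) = UU := by
      ext d
      rw [mem_D hz, mem_UU]
      constructor
      · intro h
        exact isUnit_of_dvd_unit h hu
      · intro h
        exact h.dvd
    rw [e, sum_congr rfl (fun d hd => mu_unit ((mem_UU d).1 hd)), sum_const, card_UU]
    norm_num
  · rw [if_neg hu]
    obtain ⟨p, hp, hpz⟩ := WfDvdMonoid.exists_irreducible_factor hu hz
    have hp' : Prime p := hp.prime
    rw [← sum_filter_add_sum_filter_not ((bl (nz z)).filter (fun d => d ∣ z)) (fun d => p ∣ d) mu]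
    have key : ∑ d ∈ ((bl (nz z)).filter (fun d => d ∣ z)).filter (fun d => ¬ p ∣ d), (- mu d) =
        ∑ d ∈ ((bl (nz z)).filter (fun d => d ∣ z)).filter (fun d => p ∣ d), mu d := by
      apply Finset.sum_of_injOn (fun d => p * d)
      · intro a _ b _ hab
        exact mul_left_cancel₀ hp'.ne_zero hab
      · intro d hd
        rw [mem_coe, mem_filter, mem_D hz] at hd ⊢
        refine ⟨?_, dvd_mul_right _ _⟩
        exact (hp.coprime_iff_not_dvd.2 hd.2).mul_dvd hpz hd.1
      · intro d hd hd2
        rw [mem_filter, mem_D hz] at hd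
        obtain ⟨e, rfl⟩ := hd.2
        have hpe : p ∣ e := by
          by_contra hpe
          apply hd2
          refine ⟨e, ?_, rfl⟩
          rw [mem_coe, mem_filter, mem_D hz]
          exact ⟨(dvd_mul_left e p).trans hd.1, hpe⟩
        apply mu_mul_zero
        intro hc
        exact hp.coprime_iff_not_dvd.1 hc hpe
      · intro d hd
        rw [mem_filter] at hd
        rw [mu_mul (hp.coprime_iff_not_dvd.2 hd.2), mu_prime hp']
        ring
    rw [← key, sum_neg_distrib]
    ring

/-- the values of the von Mangoldt function -/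
theorem LamK_pow {p c : ZI} (hp : Prime p) {k : ℕ} (hk : 0 < k) (h : Associated (p ^ k) c) :
    LamK c = Real.log (nz p) := by
  have hex : ∃ π : GaussianInt, Prime π ∧ ∃ k : ℕ, 0 < k ∧ Associated (π ^ k) c := ⟨p, hp, k, hk, h⟩
  unfold LamK
  rw [dif_pos hex]
  obtain ⟨hq, l, hl, hql⟩ := hex.choose_spec
  generalize hex.choose = q at hq hql
  have h1 : Associated (p ^ k) (q ^ l) := h.trans hql.symm
  have h2 : p ∣ q := by
    apply hp.dvd_of_dvd_pow (n := l)
    exact (dvd_pow_self p hk.ne').trans h1.dvd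
  have h3 : Associated p q := hp.associated_of_dvd hq h2
  have h4 : nz p = nz q := by
    apply le_antisymm
    · exact nz_le_of_dvd hq.ne_zero h3.dvd
    · exact nz_le_of_dvd hp.ne_zero h3.symm.dvd
  rw [h4]
  rfl

theorem LamK_zero {c : ZI} (h : ¬ ∃ π : GaussianInt, Prime π ∧ ∃ k : ℕ, 0 < k ∧ Associated (π ^ k) c) :
    LamK c = 0 := by
  unfold LamK
  rw [dif_neg h]

theorem LamK_bd (z : ZI) : 0 ≤ LamK z ∧ (z ≠ 0 → LamK z ≤ Real.log (nz z)) := by
  by_cases h : ∃ π : GaussianInt, Prime π ∧ ∃ k : ℕ, 0 < k ∧ Associated (π ^ k) z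
  · obtain ⟨p, hp, k, hk, hpk⟩ := h
    rw [LamK_pow hp hk hpk]
    have h1 : 1 ≤ nz p := one_le_nz hp.ne_zero
    refine ⟨Real.log_nonneg h1, fun hz => ?_⟩
    apply Real.log_le_log (by linarith)
    apply nz_le_of_dvd hz
    exact (dvd_pow_self p hk.ne').trans hpk.dvd
  · rw [LamK_zero h]
    exact ⟨le_refl _, fun hz => Real.log_nonneg (one_le_nz hz)⟩

open Classical in
theorem sum_LamK (z : ZI) : z ≠ 0 →
    ∑ c ∈ (bl (nz z)).filter (fun c => c ∣ z), LamK c = 4 * Real.log (nz z) := by
  induction z using UniqueFactorizationMonoid.induction_on_prime with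
  | h₁ => exact fun h => absurd rfl h
  | h₂ u hu =>
    intro hz
    have h1 : nz u = 1 := by
      apply le_antisymm
      · have := nz_le_of_dvd (one_ne_zero : (1 : ZI) ≠ 0) hu.dvd
        rw [nz_eq 1] at this
        simpa using this
      · exact one_le_nz hz
    rw [h1, Real.log_one, mul_zero]
    apply sum_eq_zero
    intro c hc
    apply LamK_zero
    rintro ⟨p, hp, k, hk, hpk⟩
    have hcu : c ∣ u := (mem_filter.1 hc).2
    have : IsUnit p := isUnit_of_dvd_unit (((dvd_pow_self p hk.ne').trans hpk.dvd).trans hcu) hu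
    exact hp.not_unit this
  | h₃ z p hz hp ih =>
    intro hpz
    have ih := ih hz
    rw [← sum_filter_add_sum_filter_not ((bl (nz (p * z))).filter (fun c => c ∣ p * z))
      (fun c => c ∣ z) LamK]
    have e1 : ((bl (nz (p * z))).filter (fun c => c ∣ p * z)).filter (fun c => c ∣ z) =
        (bl (nz z)).filter (fun c => c ∣ z) := by
      ext c
      rw [mem_filter, mem_D hpz, mem_D hz]
      exact ⟨fun h => h.2, fun h => ⟨h.trans (dvd_mul_left _ _), h⟩⟩
    rw [e1, ih]
    have hfin : FiniteMultiplicity p z := FiniteMultiplicity.of_prime_left hp hz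
    obtain ⟨w, hw, hpw⟩ := hfin.exists_eq_pow_mul_and_not_dvd
    set n := multiplicity p z with hn
    have key : ∑ u ∈ UU, Real.log (nz p) =
        ∑ c ∈ ((bl (nz (p * z))).filter (fun c => c ∣ p * z)).filter (fun c => ¬ c ∣ z), LamK c := by
      apply Finset.sum_of_injOn (fun u => u * p ^ (n + 1))
      · intro a _ b _ hab
        exact mul_right_cancel₀ (pow_ne_zero _ hp.ne_zero) hab
      · intro u hu
        rw [mem_coe, mem_UU] at hu
        rw [mem_coe, mem_filter, mem_D hpz]
        constructor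
        · simp only
          rw [hu.mul_left_dvd, hw, ← mul_assoc, ← pow_succ']
          exact dvd_mul_right _ _
        · simp only
          rw [hu.mul_left_dvd, hw, pow_succ, mul_dvd_mul_iff_left (pow_ne_zero _ hp.ne_zero)]
          exact hpw
      · intro c hc hc2
        rw [mem_filter, mem_D hpz] at hc
        obtain ⟨hc, hcz⟩ := hc
        apply LamK_zero
        rintro ⟨q, hq, k, hk, hqk⟩
        apply hc2
        have hq1 : q ^ k ∣ p * z := hqk.dvd.trans hc
        have hq2 : ¬ q ^ k ∣ z := fun h => hcz (hqk.symm.dvd.trans h)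
        have hpq : Associated p q := by
          by_contra hna
          apply hq2
          have hcop : IsCoprime (q ^ k) p := by
            apply IsCoprime.pow_left
            rw [hq.irreducible.coprime_iff_not_dvd]
            intro h
            exact hna (hq.associated_of_dvd hp h).symm
          exact hcop.dvd_of_dvd_mul_left hq1
        have hpk : Associated (p ^ k) c := (hpq.pow_pow).trans hqk
        have hk1 : p ^ k ∣ p * z := hpk.dvd.trans hc
        have hk2 : ¬ p ^ k ∣ z := fun h => hcz (hpk.symm.dvd.trans h)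
        have hkn : k = n + 1 := by
          obtain ⟨j, rfl⟩ : ∃ j, k = j + 1 := ⟨k - 1, by omega⟩
          rw [pow_succ', mul_dvd_mul_iff_left hp.ne_zero, hw] at hk1
          rw [hw] at hk2
          have h1 : j ≤ n := by
            by_contra hlt
            apply hpw
            have h2 : p ^ (n + 1) ∣ p ^ n * w := (pow_dvd_pow p (by omega)).trans hk1
            rw [pow_succ, mul_dvd_mul_iff_left (pow_ne_zero _ hp.ne_zero)] at h2
            exact h2
          have h2 : n < j + 1 := by
            by_contra hlt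
            apply hk2
            exact (pow_dvd_pow p (by omega)).trans (dvd_mul_right _ _)
          omega
        subst hkn
        obtain ⟨v, hv⟩ := hpk
        refine ⟨(v : ZI), ?_, ?_⟩
        · rw [mem_coe, mem_UU]
          exact v.isUnit
        · simp only
          rw [← hv, mul_comm]
      · intro u hu
        rw [mem_UU] at hu
        obtain ⟨v, rfl⟩ := hu
        symm
        apply LamK_pow hp (Nat.succ_pos n)
        exact ⟨v, mul_comm _ _⟩
    rw [← key, sum_const, card_UU, nz_mul, Real.log_mul]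
    · simp only [nsmul_eq_mul]
      push_cast
      ring
    · have := one_le_nz hp.ne_zero
      positivity
    · have := one_le_nz hz
      positivity

theorem mub : S_MUB :=
  ⟨fun _ _ h => mu_mul h, fun _ _ _ _ h => mu_mul_zero h, fun _ _ h => mu_unit_mul h, sum_mu,
    sum_LamK, LamK_bd⟩

end Pool.Agent.N157.GN
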